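import Mathlib

/-!
Project SY (helper46): large finite monochromatic symmetric subsets in infinite groups (MP_76c039_co).
Statements of the tasks as `Prop`s `S_<ID>`.
-/

set_option autoImplicit false

namespace Pool.Agent.H46R2.SY

/-- for one colouring `c` and one `n`: a finite one-coloured set with at least `n` elements
that is symmetric about some `g`. -/
def SymAt {G : Type} [Group G] (k : ℕ) (c : G → Fin k) (n : ℕ) : Prop :=
  ∃ (A : Finset G) (g : G),
    n ≤ A.card ∧
    (∀ a ∈ A, ∀ b ∈ A, c a = c b) ∧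
    (A : Set G) = (fun x => g * x⁻¹ * g) '' (A : Set G)

/-- every finite colouring of `G` has one-coloured finite symmetric sets of every size. -/
def HasSym (G : Type) [Group G] : Prop :=
  ∀ (k : ℕ) (c : G → Fin k) (n : ℕ), SymAt k c n

/-- no common exponent. -/
def S_CYC : Prop :=
  ∀ (G : Type) [Group G], (∀ N : ℕ, 0 < N → ∃ x : G, x ^ N ≠ 1) → HasSym G

/-- infinitely many involutions. -/
def S_INV : Prop :=
  ∀ (G : Type) [Group G], {x : G | x ^ 2 = 1}.Infinite → HasSym G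

/-- subgroups. -/
def S_SUB : Prop :=
  ∀ (G : Type) [Group G] (H : Subgroup G), HasSym H → HasSym G

/-- B. H. Neumann's lemma for centralisers. -/
def S_NEU : Prop :=
  ∀ (G : Type) [Group G] (C F : Finset G),
    (∀ c ∈ C, (Subgroup.centralizer ({c} : Set G)).index = 0) →
    ∃ a : G, ∀ c ∈ C, a⁻¹ * c * a ∉ F

/-- the grid argument. -/
def S_GRID : Prop :=
  ∀ (G : Type) [Group G] (k n : ℕ) (c : G → Fin k) (S : Finset G), k < S.card →
    (∀ x ∈ S, ∀ y ∈ S, x ≠ y → ∃ m : G, m * x⁻¹ * m = y ∧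
      (Subgroup.centralizer ({m⁻¹ * x} : Set G)).index = 0) →
    SymAt k c n

/-- the FC-centre is a subgroup. -/
def S_FC : Prop :=
  ∀ (G : Type) [Group G], ∃ F : Subgroup G,
    ∀ x : G, x ∈ F ↔ (Subgroup.centralizer ({x} : Set G)).index ≠ 0

/-- odd exponent, FC-centre of finite index. -/
def S_FIN : Prop :=
  ∀ (G : Type) [Group G] [Infinite G] (N : ℕ), Odd N → (∀ x : G, x ^ N = 1) →
    (∃ F : Subgroup G, F.index ≠ 0 ∧
      ∀ x ∈ F, (Subgroup.centralizer ({x} : Set G)).index ≠ 0) →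
    HasSym G

/-- infinite groups of odd exponent. -/
def S_ODD : Prop :=
  ∀ (G : Type) [Group G] [Infinite G] (N : ℕ), Odd N → (∀ x : G, x ^ N = 1) → HasSym G

/-- group theory: a minimal choice of involutions. -/
def S_MIN : Prop :=
  ∀ (G : Type) [Group G], {x : G | x ^ 2 = 1}.Finite →
    (∀ K : Subgroup G, (K : Set G).Infinite → ∃ x ∈ K, x ≠ 1 ∧ x ^ 2 = 1) →
    ∀ K : Subgroup G, (K : Set G).Infinite →
      ∃ H : Subgroup G, H ≤ K ∧ (H : Set G).Infinite ∧
        ∃ t ∈ H, t ≠ 1 ∧ t ^ 2 = 1 ∧ (∀ x ∈ H, t * x = x * t) ∧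
          ∀ L : Subgroup G, L ≤ H → (L : Set G).Infinite → t ∈ L

end Pool.Agent.H46R2.SY
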