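import Mathlib
import Pool.Agent.H46R2.SY.Defs

/-! Task CYC (helper325): groups without a common exponent. -/

set_option autoImplicit false

namespace Pool.Agent.H46R2.SY

theorem cyc_inj {G : Type} [Group G] (hG : ∀ N : ℕ, 0 < N → ∃ x : G, x ^ N ≠ 1) (L : ℕ) :
    ∃ h : G, ∀ i < L, ∀ j < L, h ^ i = h ^ j → i = j := by
  obtain ⟨h, hh⟩ := hG (Nat.factorial L) (Nat.factorial_pos L)
  refine ⟨h, ?_⟩
  have hord : orderOf h = 0 ∨ L < orderOf h := by
    by_contra hcon
    push Not at hcon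
    obtain ⟨h0, h1⟩ := hcon
    apply hh
    rw [← orderOf_dvd_iff_pow_eq_one]
    exact Nat.dvd_factorial (Nat.pos_of_ne_zero h0) h1
  intro i hi j hj hij
  rcases hord with h0 | h0
  · rw [orderOf_eq_zero_iff] at h0
    exact (injective_pow_iff_not_isOfFinOrder.2 h0) hij
  · exact pow_injOn_Iio_orderOf (Set.mem_Iio.2 (lt_trans hi h0)) (Set.mem_Iio.2 (lt_trans hj h0)) hij

theorem t_CYC : S_CYC := by
  intro G _ hG k c n
  have hk : 0 < k := lt_of_le_of_lt (Nat.zero_le _) (c 1).2
  set M : ℕ := 2 * k * (n + 1) with hM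
  have hMpos : 0 < M := by positivity
  set L : ℕ := k * M with hL
  have hLpos : 0 < L := by positivity
  obtain ⟨h, hinj⟩ := cyc_inj hG (2 * L)
  -- a colour class
  obtain ⟨e, _, he⟩ := Finset.exists_le_card_fiber_of_mul_le_card_of_maps_to
    (s := Finset.range L) (t := (Finset.univ : Finset (Fin k))) (f := fun i => c (h ^ (2 * i)))
    (n := M) (fun _ _ => Finset.mem_univ _) ⟨⟨0, hk⟩, Finset.mem_univ _⟩
    (by rw [Finset.card_univ, Fintype.card_fin, Finset.card_range])
  set B : Finset ℕ := (Finset.range L).filter (fun i => c (h ^ (2 * i)) = e) with hB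
  have hBL : ∀ i ∈ B, i < L := fun i hi => Finset.mem_range.1 (Finset.mem_filter.1 hi).1
  have hBe : ∀ i ∈ B, c (h ^ (2 * i)) = e := fun i hi => (Finset.mem_filter.1 hi).2
  -- a popular sum
  obtain ⟨s, _, hs⟩ := Finset.exists_le_card_fiber_of_mul_le_card_of_maps_to
    (s := B ×ˢ B) (t := Finset.range (2 * L)) (f := fun p => p.1 + p.2)
    (n := n + 1) (by
      intro p hp
      rw [Finset.mem_product] at hp
      have h1 := hBL _ hp.1
      have h2 := hBL _ hp.2
      rw [Finset.mem_range]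
      omega) ⟨0, Finset.mem_range.2 (by omega)⟩
    (by
      rw [Finset.card_range, Finset.card_product]
      calc 2 * L * (n + 1) = M * M := by rw [hL, hM]; ring
        _ ≤ B.card * B.card := Nat.mul_le_mul he he)
  set C : Finset ℕ := B.filter (fun i => i ≤ s ∧ s - i ∈ B) with hC
  have hCB : ∀ i ∈ C, i ∈ B := fun i hi => (Finset.mem_filter.1 hi).1
  have hCs : ∀ i ∈ C, i ≤ s ∧ s - i ∈ B := fun i hi => (Finset.mem_filter.1 hi).2
  have hCard : n ≤ C.card := by
    refine le_trans (Nat.le_succ n) (le_trans hs ?_)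
    refine Finset.card_le_card_of_injOn Prod.fst ?_ ?_
    · intro p hp
      have hp' := Finset.mem_filter.1 (Finset.mem_coe.1 hp)
      have hp1 := Finset.mem_product.1 hp'.1
      have hp2 : p.1 + p.2 = s := hp'.2
      refine Finset.mem_coe.2 (Finset.mem_filter.2 ⟨hp1.1, by omega, ?_⟩)
      have : s - p.1 = p.2 := by omega
      rw [this]
      exact hp1.2
    · intro p hp p' hp' hpp
      have h1 : p.1 + p.2 = s := (Finset.mem_filter.1 (Finset.mem_coe.1 hp)).2
      have h2 : p'.1 + p'.2 = s := (Finset.mem_filter.1 (Finset.mem_coe.1 hp')).2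
      have h3 : p.1 = p'.1 := hpp
      exact Prod.ext h3 (by omega)
  classical
  refine ⟨C.image (fun i => h ^ (2 * i)), h ^ s, ?_, ?_, ?_⟩
  · rw [Finset.card_image_of_injOn]
    · exact hCard
    · intro i hi j hj hij
      have h1 := hBL i (hCB i hi)
      have h2 := hBL j (hCB j hj)
      have := hinj (2 * i) (by omega) (2 * j) (by omega) hij
      omega
  · intro a ha b hb
    rw [Finset.mem_image] at ha hb
    obtain ⟨i, hi, rfl⟩ := ha
    obtain ⟨j, hj, rfl⟩ := hb
    rw [hBe i (hCB i hi), hBe j (hCB j hj)]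
  · have hrefl : ∀ i ≤ s, h ^ s * (h ^ (2 * i))⁻¹ * h ^ s = h ^ (2 * (s - i)) := by
      intro i hi
      obtain ⟨d, rfl⟩ := Nat.exists_eq_add_of_le hi
      have e1 : i + d - i = d := by omega
      rw [e1]
      have e2 : h ^ (i + d) = h ^ d * h ^ i := by rw [← pow_add, Nat.add_comm]
      have e3 : h ^ (2 * i) = h ^ i * h ^ i := by rw [← pow_add]; congr 1; omega
      have e4 : h ^ (2 * d) = h ^ d * h ^ d := by rw [← pow_add]; congr 1; omega
      have e5 : h ^ (i + d) = h ^ i * h ^ d := pow_add _ _ _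
      rw [e3, e4]
      calc h ^ (i + d) * (h ^ i * h ^ i)⁻¹ * h ^ (i + d)
          = (h ^ d * h ^ i) * (h ^ i * h ^ i)⁻¹ * (h ^ i * h ^ d) := by rw [← e2, ← e5]
        _ = h ^ d * h ^ d := by group
    have hrefC : ∀ i ∈ C, s - i ∈ C := by
      intro i hi
      have h1 := hCs i hi
      refine Finset.mem_filter.2 ⟨h1.2, Nat.sub_le _ _, ?_⟩
      have : s - (s - i) = i := by omega
      rw [this]
      exact hCB i hi
    ext x
    simp only [Finset.coe_image, Set.mem_image, Finset.mem_coe]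
    constructor
    · rintro ⟨i, hi, rfl⟩
      refine ⟨h ^ (2 * (s - i)), ⟨s - i, hrefC i hi, rfl⟩, ?_⟩
      rw [hrefl (s - i) (Nat.sub_le _ _)]
      have h1 := (hCs i hi).1
      have : s - (s - i) = i := by omega
      rw [this]
    · rintro ⟨_, ⟨i, hi, rfl⟩, rfl⟩
      exact ⟨s - i, hrefC i hi, (hrefl i (hCs i hi).1).symm⟩

end Pool.Agent.H46R2.SY
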