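import Pool.Agent.H46R2.SY.Defs

/-! FC (helper19): the FC-centre is a subgroup. -/

set_option autoImplicit false

namespace Pool.Agent.H46R2.SY

theorem fc_index_ne_zero {G : Type} [Group G] {x y z : G}
    (h : Subgroup.centralizer ({x} : Set G) ⊓ Subgroup.centralizer ({y} : Set G) ≤
      Subgroup.centralizer ({z} : Set G))
    (hx : (Subgroup.centralizer ({x} : Set G)).index ≠ 0)
    (hy : (Subgroup.centralizer ({y} : Set G)).index ≠ 0) :
    (Subgroup.centralizer ({z} : Set G)).index ≠ 0 := by
  intro hz
  have h1 := Subgroup.index_inf_ne_zero hx hy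
  exact h1 (Nat.eq_zero_of_zero_dvd (hz ▸ Subgroup.index_dvd_of_le h))

theorem t_FC : S_FC := by
  intro G _
  refine ⟨{ carrier := {x | (Subgroup.centralizer ({x} : Set G)).index ≠ 0}
            mul_mem' := ?_
            one_mem' := ?_
            inv_mem' := ?_ }, fun x => Iff.rfl⟩
  · intro x y hx hy
    refine fc_index_ne_zero ?_ hx hy
    intro g hg
    rw [Subgroup.mem_inf, Subgroup.mem_centralizer_singleton_iff,
      Subgroup.mem_centralizer_singleton_iff] at hg
    rw [Subgroup.mem_centralizer_singleton_iff]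
    rw [← mul_assoc, hg.1, mul_assoc, hg.2, mul_assoc]
  · show (Subgroup.centralizer ({1} : Set G)).index ≠ 0
    have : Subgroup.centralizer ({1} : Set G) = ⊤ := by
      ext g
      simp [Subgroup.mem_centralizer_singleton_iff]
    rw [this]
    simp
  · intro x hx
    refine fc_index_ne_zero (x := x) (y := x) ?_ hx hx
    intro g hg
    rw [Subgroup.mem_inf, Subgroup.mem_centralizer_singleton_iff] at hg
    rw [Subgroup.mem_centralizer_singleton_iff]
    have h1 := hg.1
    calc g * x⁻¹ = x⁻¹ * (x * g) * x⁻¹ := by group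
      _ = x⁻¹ * (g * x) * x⁻¹ := by rw [h1]
      _ = x⁻¹ * g := by group

end Pool.Agent.H46R2.SY
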