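import Pool.Agent.H46R2.SY.Defs

set_option autoImplicit false

namespace Pool.Agent.H46R2.SY

theorem fin_comm {G : Type} [Group G] (F : Subgroup G) (hF : F.index ≠ 0)
    (hx : ∀ x ∈ F, (Subgroup.centralizer ({x} : Set G)).index ≠ 0) (T : Finset G) :
    (∀ b ∈ T, b ∈ F) →
    ∃ H : Subgroup G, H.index ≠ 0 ∧ H ≤ F ∧ ∀ b ∈ T, ∀ y ∈ H, y * b = b * y := by
  classical
  induction T using Finset.induction_on with
  | empty =>
    intro _
    exact ⟨F, hF, le_refl _, by simp⟩
  | insert a T _ ih =>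
    intro hT
    obtain ⟨H, h1, h2, h3⟩ := ih (fun b hb => hT b (Finset.mem_insert_of_mem hb))
    refine ⟨H ⊓ Subgroup.centralizer ({a} : Set G), ?_, le_trans inf_le_left h2, ?_⟩
    · exact Subgroup.index_inf_ne_zero h1 (hx a (hT a (Finset.mem_insert_self _ _)))
    · intro b hb y hy
      rcases Finset.mem_insert.1 hb with rfl | hb
      · have := (Subgroup.mem_inf.1 hy).2
        rw [Subgroup.mem_centralizer_iff] at this
        exact (this b (by simp)).symm
      · exact h3 b hb y (Subgroup.mem_inf.1 hy).1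

theorem fin_inf {G : Type} [Group G] [Infinite G] (H : Subgroup G) (h : H.index ≠ 0) :
    (H : Set G).Infinite := by
  have h1 := H.card_mul_index
  rw [Nat.card_eq_zero_of_infinite (α := G)] at h1
  have h2 : Nat.card H = 0 := by
    rcases Nat.mul_eq_zero.1 h1 with h2 | h2
    · exact h2
    · exact absurd h2 h
  rw [Nat.card_eq_zero] at h2
  rcases h2 with h2 | h2
  · exact (h2.false ⟨1, H.one_mem⟩).elim
  · exact Set.infinite_coe_iff.1 h2

theorem fin_T {G : Type} [Group G] [Infinite G] (F : Subgroup G) (hF : F.index ≠ 0)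
    (hx : ∀ x ∈ F, (Subgroup.centralizer ({x} : Set G)).index ≠ 0) (j : ℕ) :
    ∃ T : Finset G, T.card = j ∧ (∀ b ∈ T, b ∈ F) ∧ ∀ x ∈ T, ∀ y ∈ T, x * y = y * x := by
  classical
  induction j with
  | zero => exact ⟨∅, by simp, by simp, by simp⟩
  | succ j ih =>
    obtain ⟨T, h1, h2, h3⟩ := ih
    obtain ⟨H, k1, k2, k3⟩ := fin_comm F hF hx T h2
    obtain ⟨y, hy, hyT⟩ := (fin_inf H k1).exists_notMem_finset T
    refine ⟨insert y T, ?_, ?_, ?_⟩
    · rw [Finset.card_insert_of_notMem hyT, h1]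
    · intro b hb
      rcases Finset.mem_insert.1 hb with rfl | hb
      · exact k2 hy
      · exact h2 b hb
    · intro a ha b hb
      rcases Finset.mem_insert.1 ha with e1 | ha'
      · rcases Finset.mem_insert.1 hb with e2 | hb'
        · rw [e1, e2]
        · rw [e1]; exact k3 b hb' y hy
      · rcases Finset.mem_insert.1 hb with e2 | hb'
        · rw [e2]; exact (k3 a ha' y hy).symm
        · exact h3 a ha' b hb'

/-- the core: large finite commutative subgroup with odd exponent. -/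
theorem fin_core {G : Type} [Group G] (N : ℕ) (hN : Odd N) (hG : ∀ x : G, x ^ N = 1)
    (B : Finset G) (hB : ∀ x ∈ B, ∀ y ∈ B, x * y = y * x)
    (hm : ∀ x ∈ B, ∀ y ∈ B, (y * x⁻¹) ^ ((N + 1) / 2) * x ∈ B)
    (hne : B.Nonempty)
    (k n : ℕ) (c : G → Fin k) (hk : k ^ 2 * n ≤ B.card) : SymAt k c n := by
  classical
  have hkpos : 0 < k := (c 1).pos
  have : NeZero k := ⟨hkpos.ne'⟩
  -- colour class
  obtain ⟨i, -, hi⟩ : ∃ i ∈ (Finset.univ : Finset (Fin k)),
      B.card ≤ k * (B.filter (fun x => c x = i)).card := by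
    by_contra hcon
    push Not at hcon
    have h1 : B.card = ∑ i : Fin k, (B.filter (fun x => c x = i)).card :=
      Finset.card_eq_sum_card_fiberwise (fun x _ => Finset.mem_coe.2 (Finset.mem_univ _))
    have h2 : ∑ i : Fin k, k * (B.filter (fun x => c x = i)).card < ∑ _i : Fin k, B.card :=
      Finset.sum_lt_sum_of_nonempty ⟨⟨0, hkpos⟩, Finset.mem_univ _⟩ hcon
    rw [← Finset.mul_sum, ← h1] at h2
    simp at h2
  set Bi := B.filter (fun x => c x = i) with hBi
  have hBiB : ∀ x ∈ Bi, x ∈ B := fun x hx => (Finset.mem_filter.1 hx).1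
  have hBic : ∀ x ∈ Bi, c x = i := fun x hx => (Finset.mem_filter.1 hx).2
  -- pairs
  let f : G × G → G := fun p => (p.2 * p.1⁻¹) ^ ((N + 1) / 2) * p.1
  have hmap : ∀ p ∈ Bi ×ˢ Bi, f p ∈ B := by
    intro p hp
    rw [Finset.mem_product] at hp
    exact hm _ (hBiB _ hp.1) _ (hBiB _ hp.2)
  have hcard : B.card * n ≤ (Bi ×ˢ Bi).card := by
    rw [Finset.card_product]
    have h1 : B.card * B.card ≤ (k * Bi.card) * (k * Bi.card) := Nat.mul_le_mul hi hi
    have h2 : k ^ 2 * n * B.card ≤ B.card * B.card := Nat.mul_le_mul_right _ hk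
    have h3 : k ^ 2 * (B.card * n) ≤ k ^ 2 * (Bi.card * Bi.card) := by
      nlinarith
    exact Nat.le_of_mul_le_mul_left h3 (by positivity)
  obtain ⟨g, hg, hgn⟩ := Finset.exists_le_card_fiber_of_mul_le_card_of_maps_to hmap hne hcard
  have hdet : ∀ x ∈ B, ∀ y ∈ B, (y * x⁻¹) ^ ((N + 1) / 2) * x = g → g * x⁻¹ * g = y := by
    intro x hx y hy h
    have hxy : Commute x y := hB x hx y hy
    have hz : Commute (y * x⁻¹) x := by
      have h1 : Commute y x := hxy.symm
      have h2 : Commute x⁻¹ x := (Commute.refl x).inv_left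
      exact h1.mul_left h2
    have h2 : 2 * ((N + 1) / 2) = N + 1 := by
      obtain ⟨r, hr⟩ := hN
      omega
    rw [← h]
    have hzz : Commute ((y * x⁻¹) ^ ((N + 1) / 2)) x := hz.pow_left _
    calc (y * x⁻¹) ^ ((N + 1) / 2) * x * x⁻¹ * ((y * x⁻¹) ^ ((N + 1) / 2) * x)
        = (y * x⁻¹) ^ ((N + 1) / 2) * (y * x⁻¹) ^ ((N + 1) / 2) * x := by group
      _ = (y * x⁻¹) ^ (2 * ((N + 1) / 2)) * x := by rw [two_mul, pow_add]
      _ = y := by
        rw [h2, pow_succ, hG, one_mul]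
        group
  refine ⟨Bi.filter (fun x => g * x⁻¹ * g ∈ Bi), g, ?_, ?_, ?_⟩
  · refine le_trans hgn ?_
    refine Finset.card_le_card_of_injOn Prod.fst ?_ ?_
    · intro p hp
      have hp' := Finset.mem_filter.1 (Finset.mem_coe.1 hp)
      have hp1 := Finset.mem_product.1 hp'.1
      apply Finset.mem_coe.2
      refine Finset.mem_filter.2 ⟨hp1.1, ?_⟩
      have := hdet p.1 (hBiB _ hp1.1) p.2 (hBiB _ hp1.2) hp'.2
      rw [this]
      exact hp1.2
    · intro p hp q hq hpq
      have hp' := Finset.mem_filter.1 (Finset.mem_coe.1 hp)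
      have hp1 := Finset.mem_product.1 hp'.1
      have hq' := Finset.mem_filter.1 (Finset.mem_coe.1 hq)
      have hq1 := Finset.mem_product.1 hq'.1
      have e1 := hdet p.1 (hBiB _ hp1.1) p.2 (hBiB _ hp1.2) hp'.2
      have e2 := hdet q.1 (hBiB _ hq1.1) q.2 (hBiB _ hq1.2) hq'.2
      have hpq' : p.1 = q.1 := hpq
      rw [hpq'] at e1
      exact Prod.ext hpq' (e1.symm.trans e2)
  · intro a ha b hb
    rw [hBic a (Finset.mem_filter.1 ha).1, hBic b (Finset.mem_filter.1 hb).1]
  · have hinv : ∀ x : G, g * (g * x⁻¹ * g)⁻¹ * g = x := by intro x; group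
    ext x
    simp only [Finset.coe_filter, Set.mem_setOf_eq, Set.mem_image]
    constructor
    · rintro ⟨h1, h2⟩
      exact ⟨g * x⁻¹ * g, ⟨h2, by rw [hinv]; exact h1⟩, hinv x⟩
    · rintro ⟨y, ⟨h1, h2⟩, rfl⟩
      exact ⟨h2, by rw [hinv]; exact h1⟩

theorem t_FIN : S_FIN := by
  classical
  intro G _ _ N hN hG hF k c n
  obtain ⟨F, hF1, hF2⟩ := hF
  obtain ⟨T, h1, h2, h3⟩ := fin_T F hF1 hF2 (k ^ 2 * n)
  have hNpos : 0 < N := hN.pos
  let B : Subgroup G := Subgroup.closure (T : Set G)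
  let inst : CommGroup B := Subgroup.closureCommGroupOfComm
    (fun x hx y hy => h3 x (Finset.mem_coe.1 hx) y (Finset.mem_coe.1 hy))
  have hfg : Group.FG B := by
    rw [Group.fg_iff_subgroup_fg]
    exact ⟨T, rfl⟩
  have htor : Monoid.IsTorsion B := by
    intro x
    rw [isOfFinOrder_iff_pow_eq_one]
    refine ⟨N, hNpos, ?_⟩
    apply Subtype.ext
    have := hG (x : G)
    simpa using this
  have hfin : Finite B := CommGroup.finite_of_fg_torsion B htor
  have hfinset : (B : Set G).Finite := Set.toFinite _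
  have hcomm : ∀ x ∈ B, ∀ y ∈ B, x * y = y * x := by
    intro x hx y hy
    have := mul_comm (⟨x, hx⟩ : B) ⟨y, hy⟩
    exact congrArg Subtype.val this
  refine fin_core N hN hG hfinset.toFinset ?_ ?_ ?_ k n c ?_
  · intro x hx y hy
    rw [Set.Finite.mem_toFinset] at hx hy
    exact hcomm x hx y hy
  · intro x hx y hy
    rw [Set.Finite.mem_toFinset] at hx hy ⊢
    exact B.mul_mem (B.pow_mem (B.mul_mem hy (B.inv_mem hx)) _) hx
  · exact ⟨1, by rw [Set.Finite.mem_toFinset]; exact B.one_mem⟩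
  · rw [← h1]
    apply Finset.card_le_card
    intro x hx
    rw [Set.Finite.mem_toFinset]
    exact Subgroup.subset_closure (Finset.mem_coe.2 hx)

end Pool.Agent.H46R2.SY
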