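import Pool.Agent.H46R2.SY.Defs

set_option autoImplicit false
open scoped Classical

namespace Pool.Agent.H46R2.SY

section word

variable {G : Type} [Group G]

/-- the word `d 0 * a 0 * d 1 * a 1 * ... ` with `l` factors. -/
def gridW (a d : ℕ → G) : ℕ → G
  | 0 => 1
  | (l + 1) => gridW a d l * d l * a l

theorem gridW_update_le (a d : ℕ → G) (i : ℕ) (x : G) :
    ∀ l, l ≤ i → gridW a (Function.update d i x) l = gridW a d l := by
  intro l
  induction l with
  | zero => intro _; rfl
  | succ l ih =>
    intro h
    have : l ≠ i := by omega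
    simp only [gridW, ih (by omega), Function.update_of_ne this]

theorem gridW_update (a d : ℕ → G) (i : ℕ) (x : G) (l : ℕ) (hl : i < l) :
    gridW a (Function.update d i x) l
      = gridW a d i * x * (gridW a d i * d i)⁻¹ * gridW a d l := by
  induction l with
  | zero => omega
  | succ l ih =>
    rcases Nat.lt_succ_iff_lt_or_eq.1 hl with h | h
    · have hne : l ≠ i := by omega
      simp only [gridW, ih h, Function.update_of_ne hne]
      group
    · subst h
      simp only [gridW, gridW_update_le a d i x i le_rfl, Function.update_self]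
      group

theorem grid_index_conj (w c : G) :
    (Subgroup.centralizer ({w⁻¹ * c * w} : Set G)).index
      = (Subgroup.centralizer ({c} : Set G)).index := by
  have h : (Subgroup.centralizer ({w⁻¹ * c * w} : Set G))
      = (Subgroup.centralizer ({c} : Set G)).map ((MulAut.conj w⁻¹ : G ≃* G) : G →* G) := by
    ext z
    constructor
    · intro hz
      refine ⟨w * z * w⁻¹, ?_, by simp [mul_assoc]⟩
      rw [SetLike.mem_coe, Subgroup.mem_centralizer_singleton_iff] at *
      have := congrArg (fun y => w * y * w⁻¹) hz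
      simp only [mul_assoc] at this ⊢
      simpa [mul_assoc] using this
    · rintro ⟨y, hy, rfl⟩
      rw [SetLike.mem_coe, Subgroup.mem_centralizer_singleton_iff] at hy
      rw [Subgroup.mem_centralizer_singleton_iff]
      have := congrArg (fun t => w⁻¹ * t * w) hy
      simp only [mul_assoc] at this ⊢
      simpa [mul_assoc] using this
  rw [h, Subgroup.index_map_equiv]

end word

section seq

variable {G : Type} [Group G]

/-- the sets of elements to be moved by the choice of `a l`. -/
noncomputable def gridC (pick : Finset G → G) (E D : Finset G) : ℕ → Finset G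
  | 0 => E
  | (l + 1) => E ∪ Finset.image₂
      (fun c d => (pick (gridC pick E D l) * d)⁻¹ * c * (pick (gridC pick E D l) * d))
      (gridC pick E D l) D

theorem gridC_nonfc (pick : Finset G → G) (E D : Finset G)
    (hE : ∀ e ∈ E, (Subgroup.centralizer ({e} : Set G)).index = 0) :
    ∀ l, ∀ c ∈ gridC pick E D l, (Subgroup.centralizer ({c} : Set G)).index = 0 := by
  intro l
  induction l with
  | zero => exact hE
  | succ l ih =>
    intro c hc
    simp only [gridC, Finset.mem_union, Finset.mem_image₂] at hc
    rcases hc with hc | ⟨c', hc', d, hd, rfl⟩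
    · exact hE c hc
    · rw [grid_index_conj]; exact ih c' hc'

theorem gridC_E (pick : Finset G → G) (E D : Finset G) (l : ℕ) : E ⊆ gridC pick E D l := by
  cases l with
  | zero => exact Finset.Subset.refl _
  | succ l => exact Finset.subset_union_left

theorem gridC_conj (pick : Finset G → G) (E D : Finset G) (d : ℕ → G) (L : ℕ)
    (hd : ∀ i < L, d i ∈ D) (i : ℕ) (e : G) (he : e ∈ E) :
    ∀ l, i ≤ l → l < L →
      (((gridW (fun t => pick (gridC pick E D t)) d i * d i)⁻¹
          * (gridW (fun t => pick (gridC pick E D t)) d l * d l))⁻¹ * e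
        * ((gridW (fun t => pick (gridC pick E D t)) d i * d i)⁻¹
          * (gridW (fun t => pick (gridC pick E D t)) d l * d l))) ∈ gridC pick E D l := by
  intro l hil
  induction l, hil using Nat.le_induction with
  | base => intro _; simpa using gridC_E pick E D i he
  | succ l hil ih =>
    intro hlL
    have h1 := ih (by omega)
    have h2 : ∀ c ∈ gridC pick E D l, (pick (gridC pick E D l) * d (l + 1))⁻¹ * c
        * (pick (gridC pick E D l) * d (l + 1)) ∈ gridC pick E D (l + 1) := by
      intro c hc
      simp only [gridC, Finset.mem_union, Finset.mem_image₂]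
      exact Or.inr ⟨c, hc, d (l + 1), hd _ hlL, rfl⟩
    have h3 := h2 _ h1
    convert h3 using 1
    simp only [gridW]
    group

theorem grid_distinct (pick : Finset G → G) (E D F : Finset G)
    (hF : ∀ d ∈ D, ∀ e ∈ E, d * e * d⁻¹ ∈ F)
    (hE : ∀ e ∈ E, (Subgroup.centralizer ({e} : Set G)).index = 0)
    (hpick : ∀ C : Finset G, (∀ c ∈ C, (Subgroup.centralizer ({c} : Set G)).index = 0) →
      ∀ c ∈ C, (pick C)⁻¹ * c * pick C ∉ F)
    (d : ℕ → G) (L : ℕ) (hd : ∀ i < L, d i ∈ D) (i j : ℕ) (hij : i < j) (hjL : j < L)
    (x y : G) (hx : (d i)⁻¹ * x ∈ E) (hy : (d j)⁻¹ * y ∈ E) :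
    gridW (fun t => pick (gridC pick E D t)) (Function.update d i x) L
      ≠ gridW (fun t => pick (gridC pick E D t)) (Function.update d j y) L := by
  set a : ℕ → G := fun t => pick (gridC pick E D t) with ha
  rw [gridW_update a d i x L (by omega), gridW_update a d j y L hjL]
  intro h
  have h1 : gridW a d i * x * (gridW a d i * d i)⁻¹ = gridW a d j * y * (gridW a d j * d j)⁻¹ :=
    mul_right_cancel h
  obtain ⟨l, rfl⟩ : ∃ l, j = l + 1 := ⟨j - 1, by omega⟩
  have h2 := gridC_conj pick E D d L hd i _ hx l (by omega) (by omega)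
  have h3 := hpick _ (gridC_nonfc pick E D hE l) _ h2
  apply h3
  have h4 := hF _ (hd (l + 1) hjL) _ hy
  convert h4 using 1
  rw [← ha] at *
  have h5 : a l = pick (gridC pick E D l) := rfl
  rw [← h5]
  have h6 : gridW a d (l + 1) = gridW a d l * d l * a l := rfl
  rw [h6] at h1
  have h7 := congrArg (fun t => (gridW a d l * d l * a l)⁻¹ * t * (gridW a d l * d l * a l)) h1
  calc _ = (gridW a d l * d l * a l)⁻¹ * (gridW a d i * x * (gridW a d i * d i)⁻¹)
        * (gridW a d l * d l * a l) := by group
    _ = _ := by rw [h7]; group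

end seq

/-- the double counting on the grid `D ^ L`. -/
theorem grid_count {α : Type} (D : Finset α) (hD : D.Nonempty) (M : ℕ)
    (Good : (Fin (D.card * M) → α) → Fin (D.card * M) → Prop)
    (h : ∀ p ∈ Fintype.piFinset (fun _ : Fin (D.card * M) => D), ∀ i,
      ∃ m ∈ D, Good (Function.update p i m) i) :
    ∃ p ∈ Fintype.piFinset (fun _ : Fin (D.card * M) => D),
      M ≤ (Finset.univ.filter (fun i => Good p i)).card := by
  set P := Fintype.piFinset (fun _ : Fin (D.card * M) => D) with hP
  have hPne : P.Nonempty := by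
    rw [hP]; exact Fintype.piFinset_nonempty.2 (fun _ => hD)
  have : Nonempty α := ⟨hD.choose⟩
  have hcard : ∀ i, P.card ≤ D.card * (P.filter (fun p => Good p i)).card := by
    intro i
    choose! m hm using fun p (hp : p ∈ P) => h p hp i
    have h1 : P.card ≤ D.card * (P.image (fun p => Function.update p i (m p))).card := by
      apply Finset.card_le_mul_card_image
      intro q hq
      apply Finset.card_le_card_of_injOn (fun p => p i)
      · intro p hp
        simp only [Finset.coe_filter, Set.mem_ofPred_eq] at hp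
        exact (Fintype.mem_piFinset.1 hp.1) i
      · intro p hp p' hp' hpp
        simp only [Finset.coe_filter, Set.mem_ofPred_eq] at hp hp'
        funext j
        by_cases hj : j = i
        · subst hj; exact hpp
        · have := congrFun (hp.2.trans hp'.2.symm) j
          simpa [Function.update_of_ne hj] using this
    refine h1.trans (Nat.mul_le_mul_left _ (Finset.card_le_card ?_))
    intro q hq
    obtain ⟨p, hp, rfl⟩ := Finset.mem_image.1 hq
    rw [Finset.mem_filter]
    refine ⟨?_, (hm p hp).2⟩
    rw [hP, Fintype.mem_piFinset]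
    intro j
    by_cases hj : j = i
    · subst hj; simpa using (hm p hp).1
    · rw [Function.update_of_ne hj]; exact (Fintype.mem_piFinset.1 hp) j
  by_contra hcon
  push Not at hcon
  have hsum : ∑ p ∈ P, (Finset.univ.filter (fun i => Good p i)).card
      = ∑ i : Fin (D.card * M), (P.filter (fun p => Good p i)).card := by
    simp only [Finset.card_filter]
    exact Finset.sum_comm
  have hM : 0 < M := by
    obtain ⟨p, hp⟩ := hPne
    have := hcon p hp
    omega
  have h1 : ∑ p ∈ P, (Finset.univ.filter (fun i => Good p i)).card ≤ P.card * (M - 1) := by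
    have h0 : ∀ p ∈ P, (Finset.univ.filter (fun i => Good p i)).card ≤ M - 1 := by
      intro p hp
      have := hcon p hp
      omega
    have h1 := Finset.sum_le_card_nsmul P _ _ h0
    simpa using h1
  have h2 : (D.card * M) * P.card
      ≤ D.card * ∑ i : Fin (D.card * M), (P.filter (fun p => Good p i)).card := by
    rw [Finset.mul_sum]
    have : ∑ _i : Fin (D.card * M), P.card = (D.card * M) * P.card := by simp
    rw [← this]
    exact Finset.sum_le_sum (fun i _ => hcard i)
  rw [← hsum] at h2
  have h3 : (D.card * M) * P.card ≤ D.card * (P.card * (M - 1)) :=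
    h2.trans (Nat.mul_le_mul_left _ h1)
  have hPp : 0 < P.card := hPne.card_pos
  have hDp : 0 < D.card := hD.card_pos
  have h4 : D.card * (P.card * (M - 1)) < (D.card * M) * P.card := by
    have : (D.card * M) * P.card = D.card * (P.card * M) := by ring
    rw [this]
    apply Nat.mul_lt_mul_of_pos_left _ hDp
    apply Nat.mul_lt_mul_of_pos_left _ hPp
    omega
  omega

theorem t_GRID (hNEU : S_NEU) : S_GRID := by
  intro G _ k n c S hS hmid
  classical
  have hk : 0 < k := by
    rcases Nat.eq_zero_or_pos k with h | h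
    · subst h; exact (Fin.elim0 (c 1))
    · exact h
  choose! mid hm1 hm2 using hmid
  -- midpoints, nontrivial elements, forbidden set
  set D : Finset G := S ∪ (S ×ˢ S).image (fun q => mid q.1 q.2) with hDdef
  set E : Finset G := ((S ×ˢ S).filter (fun q => q.1 ≠ q.2)).image
    (fun q => (mid q.1 q.2)⁻¹ * q.1) with hEdef
  set F : Finset G := Finset.image₂ (fun d e => d * e * d⁻¹) D E with hFdef
  have hSne : S.Nonempty := by
    rw [← Finset.card_pos]; omega
  have hDne : D.Nonempty := by
    obtain ⟨s, hs⟩ := hSne
    exact ⟨s, Finset.mem_union_left _ hs⟩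
  have hEfc : ∀ e ∈ E, (Subgroup.centralizer ({e} : Set G)).index = 0 := by
    intro e he
    rw [hEdef, Finset.mem_image] at he
    obtain ⟨q, hq, rfl⟩ := he
    rw [Finset.mem_filter, Finset.mem_product] at hq
    exact hm2 q.1 hq.1.1 q.2 hq.1.2 hq.2
  have hF : ∀ d ∈ D, ∀ e ∈ E, d * e * d⁻¹ ∈ F := by
    intro d hd e he
    rw [hFdef]
    exact Finset.mem_image₂_of_mem hd he
  -- the choice of the separating elements
  have hpick0 : ∀ C : Finset G, ∃ a : G,
      (∀ c ∈ C, (Subgroup.centralizer ({c} : Set G)).index = 0) →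
      ∀ c ∈ C, a⁻¹ * c * a ∉ F := by
    intro C
    by_cases hC : ∀ c ∈ C, (Subgroup.centralizer ({c} : Set G)).index = 0
    · obtain ⟨a, ha⟩ := hNEU G C F hC
      exact ⟨a, fun _ => ha⟩
    · exact ⟨1, fun h => absurd h hC⟩
  choose pick hpick using hpick0
  set a : ℕ → G := fun t => pick (gridC pick E D t) with ha
  set M := k * n with hMdef
  set L := D.card * M with hLdef
  let ext : (Fin L → G) → ℕ → G := fun p t => if h : t < L then p ⟨t, h⟩ else 1
  have hext : ∀ (p : Fin L → G) (i : Fin L) (x : G),
      ext (Function.update p i x) = Function.update (ext p) i x := by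
    intro p i x
    funext t
    by_cases hti : t = i
    · subst hti
      simp [ext]
    · rw [Function.update_of_ne hti]
      simp only [ext]
      split_ifs with h
      · have : (⟨t, h⟩ : Fin L) ≠ i := by
          intro hh; apply hti; rw [← hh]
        rw [Function.update_of_ne this]
      · rfl
  let W : (Fin L → G) → G := fun p => gridW a (ext p) L
  let Good : (Fin L → G) → Fin L → Prop := fun p i =>
    ∃ x ∈ S, ∃ y ∈ S, x ≠ y ∧ p i = mid x y ∧
      c (W (Function.update p i x)) = c (W (Function.update p i y))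
  have hgood : ∀ p ∈ Fintype.piFinset (fun _ : Fin L => D), ∀ i,
      ∃ m ∈ D, Good (Function.update p i m) i := by
    intro p hp i
    obtain ⟨x, hx, y, hy, hxy, hc⟩ := Finset.exists_ne_map_eq_of_card_lt_of_maps_to
      (s := S) (t := (Finset.univ : Finset (Fin k)))
      (f := fun s => c (W (Function.update p i s))) (by simpa using hS) (by simp)
    refine ⟨mid x y, ?_, x, hx, y, hy, hxy, by simp, ?_⟩
    · rw [hDdef]
      exact Finset.mem_union_right _ (Finset.mem_image.2 ⟨(x, y), by simp [hx, hy], rfl⟩)
    · simpa using hc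
  obtain ⟨p, hp, hcardJ⟩ := grid_count D hDne M Good hgood
  set J := Finset.univ.filter (fun i => Good p i) with hJ
  have hJg : ∀ i ∈ J, Good p i := fun i hi => (Finset.mem_filter.1 hi).2
  choose! X hX Y hY hXY hpi hcol using hJg
  -- colours
  obtain ⟨col, -, hcol2⟩ := Finset.exists_le_card_fiber_of_mul_le_card_of_maps_to
    (s := J) (t := (Finset.univ : Finset (Fin k))) (n := n)
    (f := fun i => c (W (Function.update p i (X i)))) (by simp)
    ⟨⟨0, hk⟩, Finset.mem_univ _⟩ (by
      rw [Finset.card_univ, Fintype.card_fin]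
      refine hcardJ.trans (le_of_eq ?_)
      rw [hJ]
      congr 1
      ext i
      simp only [Finset.mem_filter])
  set J' := J.filter (fun i => c (W (Function.update p i (X i))) = col) with hJ'
  have hJ'J : ∀ i ∈ J', i ∈ J := fun i hi => (Finset.mem_filter.1 hi).1
  have hJ'c : ∀ i ∈ J', c (W (Function.update p i (X i))) = col :=
    fun i hi => (Finset.mem_filter.1 hi).2
  set g : G := W p with hg
  let x' : Fin L → G := fun i => W (Function.update p i (X i))
  let y' : Fin L → G := fun i => W (Function.update p i (Y i))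
  have hWupd : ∀ (i : Fin L) (x : G), W (Function.update p i x)
      = gridW a (ext p) i * x * (gridW a (ext p) i * p i)⁻¹ * g := by
    intro i x
    simp only [W, hg, hext]
    rw [gridW_update a (ext p) i x L i.2]
    simp [ext]
  have hsym : ∀ i ∈ J, g * (x' i)⁻¹ * g = y' i := by
    intro i hi
    simp only [x', y', hWupd]
    have h1 := hm1 (X i) (hX i hi) (Y i) (hY i hi) (hXY i hi)
    rw [← hpi i hi] at h1
    rw [← h1]
    group
  have hsym' : ∀ i ∈ J, g * (y' i)⁻¹ * g = x' i := by
    intro i hi
    rw [← hsym i hi]; group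
  have hdD : ∀ i < L, ext p i ∈ D := by
    intro i hi
    simp only [ext, dif_pos hi]
    exact (Fintype.mem_piFinset.1 hp) _
  have hxE : ∀ i ∈ J, (ext p i)⁻¹ * X i ∈ E := by
    intro i hi
    have : ext p i = p i := by simp [ext]
    rw [this, hpi i hi, hEdef, Finset.mem_image]
    exact ⟨(X i, Y i), by simp [hX i hi, hY i hi, hXY i hi], rfl⟩
  have hinj : Set.InjOn x' (J' : Set (Fin L)) := by
    have key : ∀ i ∈ J, ∀ j ∈ J, i < j → x' i ≠ x' j := by
      intro i hi j hj hij
      have := grid_distinct pick E D F hF hEfc hpick (ext p) L hdD i j hij j.2 (X i) (X j)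
        (hxE i hi) (hxE j hj)
      simp only [x', W, hext]
      exact this
    intro i hi j hj hxx
    rcases lt_trichotomy i j with h | h | h
    · exact absurd hxx (key i (hJ'J i hi) j (hJ'J j hj) h)
    · exact h
    · exact absurd hxx.symm (key j (hJ'J j hj) i (hJ'J i hi) h)
  refine ⟨J'.image x' ∪ J'.image y', g, ?_, ?_, ?_⟩
  · calc n ≤ J'.card := hcol2
      _ = (J'.image x').card := (Finset.card_image_of_injOn hinj).symm
      _ ≤ _ := Finset.card_le_card Finset.subset_union_left
  · have hall : ∀ z ∈ J'.image x' ∪ J'.image y', c z = col := by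
      intro z hz
      rw [Finset.mem_union, Finset.mem_image, Finset.mem_image] at hz
      rcases hz with ⟨i, hi, rfl⟩ | ⟨i, hi, rfl⟩
      · exact hJ'c i hi
      · rw [← hJ'c i hi]; exact (hcol i (hJ'J i hi)).symm
    intro u hu v hv
    rw [hall u hu, hall v hv]
  · ext z
    simp only [Finset.coe_union, Finset.coe_image, Set.mem_union, Set.mem_image]
    constructor
    · rintro (⟨i, hi, rfl⟩ | ⟨i, hi, rfl⟩)
      · exact ⟨y' i, Or.inr ⟨i, hi, rfl⟩, hsym' i (hJ'J i hi)⟩
      · exact ⟨x' i, Or.inl ⟨i, hi, rfl⟩, hsym i (hJ'J i hi)⟩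
    · rintro ⟨w, (⟨i, hi, rfl⟩ | ⟨i, hi, rfl⟩), rfl⟩
      · exact Or.inr ⟨i, hi, (hsym i (hJ'J i hi)).symm⟩
      · exact Or.inl ⟨i, hi, (hsym' i (hJ'J i hi)).symm⟩

end Pool.Agent.H46R2.SY
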