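import Pool.Agent.H46R2.SY.Defs

set_option autoImplicit false

namespace Pool.Agent.H46R2.SY

theorem t_INV : S_INV := by
  intro G _ hinf k c n
  classical
  have hI : Infinite {x : G | x ^ 2 = 1} := hinf.to_subtype
  obtain ⟨i, hi⟩ := Finite.exists_infinite_fiber (fun x : {x : G | x ^ 2 = 1} => c x.1)
  have hS : ({x : G | x ^ 2 = 1 ∧ c x = i}).Infinite := by
    have h1 : ((fun x : {x : G | x ^ 2 = 1} => c x.1) ⁻¹' {i}).Infinite :=
      Set.infinite_coe_iff.1 hi
    have h2 := h1.image (f := fun x : {x : G | x ^ 2 = 1} => x.1)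
      (fun a _ b _ hab => Subtype.ext hab)
    refine h2.mono ?_
    rintro y ⟨x, hx, rfl⟩
    exact ⟨x.2, hx⟩
  obtain ⟨A, hA, hcard⟩ := hS.exists_subset_card_eq n
  refine ⟨A, 1, hcard.ge, ?_, ?_⟩
  · intro a ha b hb
    rw [(hA (Finset.mem_coe.2 ha)).2, (hA (Finset.mem_coe.2 hb)).2]
  · have hinv : ∀ a ∈ A, a⁻¹ = a := by
      intro a ha
      have h := (hA (Finset.mem_coe.2 ha)).1
      rw [pow_two] at h
      exact inv_eq_of_mul_eq_one_right h
    ext y
    simp only [one_mul, mul_one, Set.mem_image, Finset.mem_coe]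
    constructor
    · intro hy
      exact ⟨y, hy, hinv y hy⟩
    · rintro ⟨x, hx, rfl⟩
      rw [hinv x hx]
      exact hx

end Pool.Agent.H46R2.SY
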