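import Mathlib
import Pool.Agent.H46R2.SY.Defs

/-! Task MIN (helper325): a minimal choice of involutions. -/

set_option autoImplicit false

namespace Pool.Agent.H46R2.SY

theorem min_inf {G : Type} [Group G] (I : Set G) (hI : I.Finite)
    (hconj : ∀ g : G, ∀ x ∈ I, g * x * g⁻¹ ∈ I) (H : Subgroup G) (hH : (H : Set G).Infinite) :
    ((H ⊓ Subgroup.centralizer I : Subgroup G) : Set G).Infinite := by
  have hfin : Finite I := hI.to_subtype
  have hinf : Infinite H := hH.to_subtype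
  obtain ⟨y, hy⟩ := Finite.exists_infinite_fiber
    (fun (h : H) (x : I) => (⟨(h : G) * x * (h : G)⁻¹, hconj _ _ x.2⟩ : I))
  set f : H → (I → I) := fun (h : H) (x : I) => (⟨(h : G) * x * (h : G)⁻¹, hconj _ _ x.2⟩ : I)
    with hf
  obtain ⟨h0⟩ : Nonempty (f ⁻¹' {y}) := inferInstance
  have key : ∀ h : (f ⁻¹' {y} : Set H), ((h0 : H) : G)⁻¹ * ((h : H) : G) ∈
      (H ⊓ Subgroup.centralizer I : Subgroup G) := by
    intro h
    refine ⟨H.mul_mem (H.inv_mem (h0 : H).2) (h : H).2, ?_⟩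
    show _ ∈ Subgroup.centralizer I
    rw [Subgroup.mem_centralizer_iff]
    intro x hx
    have e1 : f (h : H) = y := h.2
    have e2 : f (h0 : H) = y := h0.2
    have e3 : f (h : H) ⟨x, hx⟩ = f (h0 : H) ⟨x, hx⟩ := by rw [e1, e2]
    have e4 : ((h : H) : G) * x * ((h : H) : G)⁻¹ = ((h0 : H) : G) * x * ((h0 : H) : G)⁻¹ :=
      congrArg Subtype.val e3
    calc x * (((h0 : H) : G)⁻¹ * ((h : H) : G))
        = ((h0 : H) : G)⁻¹ * (((h0 : H) : G) * x * ((h0 : H) : G)⁻¹) * ((h : H) : G) := by group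
      _ = ((h0 : H) : G)⁻¹ * (((h : H) : G) * x * ((h : H) : G)⁻¹) * ((h : H) : G) := by rw [e4]
      _ = ((h0 : H) : G)⁻¹ * ((h : H) : G) * x := by group
  have hinj : Function.Injective (fun h : (f ⁻¹' {y} : Set H) =>
      (⟨((h0 : H) : G)⁻¹ * ((h : H) : G), key h⟩ : (H ⊓ Subgroup.centralizer I : Subgroup G))) := by
    intro a b hab
    have h1 := congrArg Subtype.val hab
    simp only [mul_right_inj] at h1
    exact Subtype.ext (Subtype.ext h1)
  have : Infinite (H ⊓ Subgroup.centralizer I : Subgroup G) := Infinite.of_injective _ hinj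
  exact Set.infinite_coe_iff.1 this

theorem t_MIN : S_MIN := by
  intro G _ hI hinv K hK
  set I : Set G := {x : G | x ^ 2 = 1} with hIdef
  have hconj : ∀ g : G, ∀ x ∈ I, g * x * g⁻¹ ∈ I := by
    intro g x hx
    have hx' : x ^ 2 = 1 := hx
    show (g * x * g⁻¹) ^ 2 = 1
    rw [conj_pow, hx']
    group
  set S : Set ℕ := {m | ∃ H' : Subgroup G, H' ≤ K ∧ (H' : Set G).Infinite ∧
    ((H' : Set G) ∩ I).ncard = m} with hS
  have hSne : S.Nonempty := ⟨_, K, le_refl K, hK, rfl⟩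
  obtain ⟨H', hH'K, hH', hcard⟩ := Nat.sInf_mem hSne
  have hmin : ∀ L : Subgroup G, L ≤ H' → (L : Set G).Infinite →
      (L : Set G) ∩ I = (H' : Set G) ∩ I := by
    intro L hL hLi
    refine Set.eq_of_subset_of_ncard_le (fun x hx => ⟨hL hx.1, hx.2⟩) ?_ (hI.inter_of_right _)
    rw [hcard]
    exact Nat.sInf_le ⟨L, hL.trans hH'K, hLi, rfl⟩
  have hHinf := min_inf I hI hconj H' hH'
  obtain ⟨t, ht, ht1, ht2⟩ := hinv _ hHinf
  have htI : t ∈ I := ht2
  refine ⟨H' ⊓ Subgroup.centralizer I, inf_le_left.trans hH'K, hHinf, t, ht, ht1, ht2, ?_, ?_⟩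
  · intro x hx
    exact (Subgroup.mem_centralizer_iff.1 hx.2) t htI
  · intro L hL hLi
    have h1 := hmin L (hL.trans inf_le_left) hLi
    have h2 : t ∈ (H' : Set G) ∩ I := ⟨ht.1, htI⟩
    rw [← h1] at h2
    exact h2.1

end Pool.Agent.H46R2.SY
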