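import Pool.Agent.H46R2.SY.Defs

/-! NEU (helper423): B. H. Neumann's lemma for centralisers. -/

set_option autoImplicit false

open Pointwise

namespace Pool.Agent.H46R2.SY

theorem t_NEU : S_NEU := by
  classical
  intro G _ C F hC
  by_contra hcon
  push Not at hcon
  let s : Finset (G × G) := (C ×ˢ F).filter fun i => ∃ b : G, b * i.1 * b⁻¹ = i.2
  let g : G × G → G := fun i => if h : ∃ b : G, b * i.1 * b⁻¹ = i.2 then h.choose else 1
  have hcov : ⋃ i ∈ s, (g i) • ((Subgroup.centralizer ({i.1} : Set G) : Subgroup G) : Set G)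
      = Set.univ := by
    rw [Set.eq_univ_iff_forall]
    intro b
    obtain ⟨c, hc, hf⟩ := hcon b⁻¹
    rw [inv_inv] at hf
    have hex : ∃ b' : G, b' * c * b'⁻¹ = b * c * b⁻¹ := ⟨b, rfl⟩
    rw [Set.mem_iUnion₂]
    refine ⟨(c, b * c * b⁻¹), ?_, ?_⟩
    · simp only [s, Finset.mem_filter, Finset.mem_product]
      exact ⟨⟨hc, hf⟩, hex⟩
    · have hg : g (c, b * c * b⁻¹) * c * (g (c, b * c * b⁻¹))⁻¹ = b * c * b⁻¹ := by
        simp only [g]
        rw [dif_pos hex]
        exact hex.choose_spec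
      rw [Set.mem_smul_set_iff_inv_smul_mem, smul_eq_mul, SetLike.mem_coe,
        Subgroup.mem_centralizer_singleton_iff]
      set w := g (c, b * c * b⁻¹) with hw
      have h1 : c = w⁻¹ * (b * c * b⁻¹) * w := by
        rw [← hg]
        group
      calc w⁻¹ * b * c = (w⁻¹ * (b * c * b⁻¹) * w) * (w⁻¹ * b) := by group
        _ = c * (w⁻¹ * b) := by rw [← h1]
  obtain ⟨i, hi, hfin⟩ := Subgroup.exists_finiteIndex_of_leftCoset_cover hcov
  have : i.1 ∈ C := by
    simp only [s, Finset.mem_filter, Finset.mem_product] at hi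
    exact hi.1.1
  exact hfin.index_ne_zero (hC i.1 this)

end Pool.Agent.H46R2.SY
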