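import Mathlib
import Pool.Agent.H46R2.SY.Defs

/-! Task ODD (helper325): infinite groups of odd exponent, assembly. -/

set_option autoImplicit false

namespace Pool.Agent.H46R2.SY

theorem odd_conj {G : Type} [Group G] (g f : G) :
    (Subgroup.centralizer ({g * f * g⁻¹} : Set G)).index =
      (Subgroup.centralizer ({f} : Set G)).index := by
  have h : Subgroup.centralizer ({g * f * g⁻¹} : Set G) =
      (Subgroup.centralizer ({f} : Set G)).comap (MulAut.conj g⁻¹).toMonoidHom := by
    ext y
    rw [Subgroup.mem_comap, Subgroup.mem_centralizer_singleton_iff,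
      Subgroup.mem_centralizer_singleton_iff]
    simp only [MulEquiv.coe_toMonoidHom, MulAut.conj_apply, inv_inv]
    constructor
    · intro h
      calc g⁻¹ * y * g * f = g⁻¹ * (y * (g * f * g⁻¹)) * g := by group
        _ = g⁻¹ * (g * f * g⁻¹ * y) * g := by rw [h]
        _ = f * (g⁻¹ * y * g) := by group
    · intro h
      calc y * (g * f * g⁻¹) = g * (g⁻¹ * y * g * f) * g⁻¹ := by group
        _ = g * (f * (g⁻¹ * y * g)) * g⁻¹ := by rw [h]
        _ = g * f * g⁻¹ * y := by group
  rw [h, Subgroup.index_comap_of_surjective]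
  exact (MulAut.conj g⁻¹).surjective

theorem t_ODD (hG : S_GRID) (hF : S_FC) (hN : S_FIN) : S_ODD := by
  intro G _ _ N hodd hexp
  obtain ⟨F, hFx⟩ := hF G
  by_cases hidx : F.index = 0
  swap
  · exact hN G N hodd hexp ⟨F, hidx, fun x hx => (hFx x).1 hx⟩
  have hnorm : ∀ g f : G, f ∈ F → g * f * g⁻¹ ∈ F := by
    intro g f hf
    rw [hFx, odd_conj]
    exact (hFx f).1 hf
  intro k c n
  have hinf : Infinite (G ⧸ F) := Subgroup.index_eq_zero_iff_infinite.1 hidx
  obtain ⟨s, hs⟩ := Infinite.exists_subset_card_eq (G ⧸ F) (k + 1)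
  classical
  refine hG G k n c (s.image Quotient.out) ?_ ?_
  · rw [Finset.card_image_of_injective _ Quotient.out_injective, hs]
    exact Nat.lt_succ_self k
  · intro x hx y hy hxy
    rw [Finset.mem_image] at hx hy
    obtain ⟨a, _, rfl⟩ := hx
    obtain ⟨b, _, rfl⟩ := hy
    have hab : a ≠ b := fun h => hxy (by rw [h])
    set x : G := Quotient.out a with hxdef
    set y : G := Quotient.out b with hydef
    have hxy' : x⁻¹ * y ∉ F := by
      intro h
      apply hab
      have h1 : (x : G ⧸ F) = (y : G ⧸ F) := QuotientGroup.eq.2 h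
      have h2 : (x : G ⧸ F) = a := Quotient.out_eq a
      have h3 : (y : G ⧸ F) = b := Quotient.out_eq b
      rw [← h2, h1, h3]
    obtain ⟨r, hr⟩ := hodd
    set q : G := (y * x⁻¹) ^ (r + 1) with hq
    have hqq : q * q = y * x⁻¹ := by
      rw [hq, ← pow_add]
      have : r + 1 + (r + 1) = N + 1 := by omega
      rw [this, pow_succ, hexp, one_mul]
    refine ⟨q * x, ?_, ?_⟩
    · calc q * x * x⁻¹ * (q * x) = (q * q) * x := by group
        _ = y := by rw [hqq]; group
    · by_contra hne
      have h1 : (q * x)⁻¹ * x ∈ F := (hFx _).2 hne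
      have h2 : q⁻¹ ∈ F := by
        have := hnorm x _ h1
        have e : x * ((q * x)⁻¹ * x) * x⁻¹ = q⁻¹ := by group
        rwa [e] at this
      have h3 : q ∈ F := by simpa using F.inv_mem h2
      have h4 : y * x⁻¹ ∈ F := by rw [← hqq]; exact F.mul_mem h3 h3
      have h5 := hnorm x⁻¹ _ h4
      have e : x⁻¹ * (y * x⁻¹) * x⁻¹⁻¹ = x⁻¹ * y := by group
      rw [e] at h5
      exact hxy' h5

end Pool.Agent.H46R2.SY
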