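import Pool.Agent.H46R2.SY.Defs

/-! Task SUB: passing from a subgroup. -/

set_option autoImplicit false

namespace Pool.Agent.H46R2.SY

theorem t_SUB : S_SUB := by
  intro G _ H hH k c n
  obtain ⟨A, g, hA, hc, hg⟩ := hH k (fun x => c x) n
  refine ⟨A.map (Function.Embedding.subtype _), g, ?_, ?_, ?_⟩
  · rw [Finset.card_map]
    exact hA
  · intro a ha b hb
    obtain ⟨a', ha', rfl⟩ := Finset.mem_map.1 ha
    obtain ⟨b', hb', rfl⟩ := Finset.mem_map.1 hb
    exact hc a' ha' b' hb'
  · have h1 : ((A.map (Function.Embedding.subtype _) : Finset G) : Set G) =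
        (fun x : H => (x : G)) '' (A : Set H) := by
      simp
    rw [h1, Set.image_image]
    conv_lhs => rw [hg]
    rw [Set.image_image]
    refine Set.image_congr fun x _ => ?_
    simp

end Pool.Agent.H46R2.SY
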