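import Pool.Agent.H46R2.SY.Defs
import Pool.Agent.H46R2.SY.FIN
import Pool.Agent.H46R2.SY.ODD
import Pool.Agent.H46R2.SY.SUB

/-! infinite sets all of whose quotients have odd order. -/

set_option autoImplicit false

namespace Pool.Agent.H46R2.SY

/-- an infinite group all of whose elements have centralisers of finite index contains an infinite
set of pairwise commuting elements -/
theorem set_comm {G : Type} [Group G] [Infinite G]
    (hx : ∀ x : G, (Subgroup.centralizer ({x} : Set G)).index ≠ 0) :
    ∃ T : Set G, T.Infinite ∧ ∀ x ∈ T, ∀ y ∈ T, x * y = y * x := by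
  obtain ⟨T, hT⟩ := zorn_subset {T : Set G | ∀ x ∈ T, ∀ y ∈ T, x * y = y * x} (by
    intro c hc hchain
    refine ⟨⋃₀ c, ?_, fun s hs => Set.subset_sUnion_of_mem hs⟩
    rintro x ⟨s, hs, hxs⟩ y ⟨t, ht, hyt⟩
    rcases hchain.total hs ht with h | h
    · exact hc ht x (h hxs) y hyt
    · exact hc hs x hxs y (h hyt))
  refine ⟨T, ?_, hT.prop⟩
  intro hfin
  obtain ⟨H, h1, -, h3⟩ := fin_comm (⊤ : Subgroup G) (by simp) (fun x _ => hx x) hfin.toFinset
    (by simp)
  obtain ⟨y, hy, hyT⟩ := (fin_inf H h1).exists_notMem_finset hfin.toFinset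
  have hins : (∀ a ∈ insert y T, ∀ b ∈ insert y T, a * b = b * a) := by
    intro a ha b hb
    rcases Set.mem_insert_iff.1 ha with e1 | ha'
    · rcases Set.mem_insert_iff.1 hb with e2 | hb'
      · rw [e1, e2]
      · rw [e1]; exact h3 b (hfin.mem_toFinset.2 hb') y hy
    · rcases Set.mem_insert_iff.1 hb with e2 | hb'
      · rw [e2]; exact (h3 a (hfin.mem_toFinset.2 ha') y hy).symm
      · exact hT.prop a ha' b hb'
  have := hT.le_of_ge hins (Set.subset_insert y T) (Set.mem_insert y T)
  exact hyT (hfin.mem_toFinset.2 this)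

theorem set_sq {A : Type} [CommGroup A] [Infinite A] (h : {x : A | x ^ 2 = 1}.Finite) :
    Infinite (powMonoidHom 2 : A →* A).range := by
  by_contra hcon
  rw [not_infinite_iff_finite] at hcon
  have hker : Finite (powMonoidHom 2 : A →* A).ker := by
    refine Set.Finite.to_subtype (h.subset ?_)
    intro x hx
    simpa [MonoidHom.mem_ker] using hx
  have hq : Finite (A ⧸ (powMonoidHom 2 : A →* A).ker) :=
    Finite.of_equiv _ (QuotientGroup.quotientKerEquivRange (powMonoidHom 2 : A →* A)).symm.toEquiv
  have : Finite A := Finite.of_equiv _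
    (Subgroup.groupEquivQuotientProdSubgroup (s := (powMonoidHom 2 : A →* A).ker)).symm
  exact not_finite A

theorem set_pow (a : ℕ) : ∀ {A : Type} [CommGroup A] [Infinite A], {x : A | x ^ 2 = 1}.Finite →
    Infinite (powMonoidHom (2 ^ a) : A →* A).range := by
  induction a with
  | zero =>
    intro A _ _ _
    have : Function.Injective (fun x : A =>
        (⟨x, ⟨x, by simp⟩⟩ : (powMonoidHom (2 ^ 0) : A →* A).range)) := by
      intro x y hxy
      exact congrArg Subtype.val hxy
    exact Infinite.of_injective _ this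
  | succ a ih =>
    intro A _ _ h
    have h1 : Infinite (powMonoidHom 2 : A →* A).range := set_sq h
    have h2 : {x : (powMonoidHom 2 : A →* A).range | x ^ 2 = 1}.Finite := by
      refine Set.Finite.of_finite_image (f := Subtype.val) (h.subset ?_)
        (Subtype.val_injective.injOn)
      rintro _ ⟨x, hx, rfl⟩
      have := congrArg Subtype.val hx
      simpa using this
    have h3 := ih h2
    refine Infinite.of_injective (β := (powMonoidHom (2 ^ a) :
      (powMonoidHom 2 : A →* A).range →* (powMonoidHom 2 : A →* A).range).range)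
      (fun y => ⟨(y : (powMonoidHom 2 : A →* A).range).1, ?_⟩) ?_
    · obtain ⟨⟨z, ⟨w, hw⟩⟩, hz⟩ := y.2
      refine ⟨w, ?_⟩
      rw [← hz]
      simp only [powMonoidHom_apply] at hw ⊢
      rw [pow_succ', pow_mul, hw]
      rfl
    · intro x y hxy
      have := congrArg Subtype.val hxy
      exact Subtype.ext (Subtype.ext this)

/-- infinite FC-groups. -/
theorem set_fc (hODD : S_ODD) {G : Type} [Group G] [Infinite G]
    (hx : ∀ x : G, (Subgroup.centralizer ({x} : Set G)).index ≠ 0)
    (N : ℕ) (hN : 0 < N) (hexp : ∀ x : G, x ^ N = 1) (hinv : {x : G | x ^ 2 = 1}.Finite) :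
    HasSym G := by
  obtain ⟨T, hT, hcomm⟩ := set_comm hx
  let B : Subgroup G := Subgroup.closure T
  let inst : CommGroup B := Subgroup.closureCommGroupOfComm hcomm
  have hBinf : Infinite B := by
    have : (B : Set G).Infinite := hT.mono Subgroup.subset_closure
    exact this.to_subtype
  obtain ⟨a, M, hM, hNM⟩ := Nat.exists_eq_two_pow_mul_odd hN.ne'
  have hB2 : {x : B | x ^ 2 = 1}.Finite := by
    refine Set.Finite.of_finite_image (f := Subtype.val) (hinv.subset ?_)
      (Subtype.val_injective.injOn)
    rintro _ ⟨x, hx, rfl⟩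
    have := congrArg Subtype.val hx
    simpa using this
  have hR := set_pow a hB2
  have hRexp : ∀ x : (powMonoidHom (2 ^ a) : B →* B).range, x ^ M = 1 := by
    rintro ⟨x, ⟨y, rfl⟩⟩
    apply Subtype.ext
    apply Subtype.ext
    have := hexp (y : G)
    rw [hNM, pow_mul] at this
    simpa using this
  have h1 : HasSym (powMonoidHom (2 ^ a) : B →* B).range := hODD _ M hM hRexp
  have h2 : HasSym B := t_SUB _ _ h1
  exact t_SUB _ _ h2

/-- an infinite set all of whose quotients have odd order. -/
theorem t_SET (hGRID : S_GRID) (hODD : S_ODD) (hFC : S_FC)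
    {G : Type} [Group G] [Infinite G]
    (N : ℕ) (hN : 0 < N) (hexp : ∀ x : G, x ^ N = 1) (hinv : {x : G | x ^ 2 = 1}.Finite)
    (S : Set G) (hS : S.Infinite)
    (hodd : ∀ x ∈ S, ∀ y ∈ S, x ≠ y → Odd (orderOf (x * y⁻¹))) : HasSym G := by
  obtain ⟨F, hFx⟩ := hFC G
  by_cases hF : (F : Set G).Infinite
  · have hFi : Infinite F := hF.to_subtype
    have h1 : HasSym F := by
      refine set_fc hODD ?_ N hN ?_ ?_
      · intro x
        have e : Subgroup.centralizer ({x} : Set F)
            = (Subgroup.centralizer ({(x : G)} : Set G)).subgroupOf F := by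
          ext y
          rw [Subgroup.mem_subgroupOf, Subgroup.mem_centralizer_singleton_iff,
            Subgroup.mem_centralizer_singleton_iff]
          constructor
          · intro h; exact congrArg Subtype.val h
          · intro h; exact Subtype.ext h
        rw [e]
        have : (Subgroup.centralizer ({(x : G)} : Set G)).FiniteIndex :=
          ⟨(hFx x).1 x.2⟩
        exact Subgroup.FiniteIndex.index_ne_zero
      · intro x
        exact Subtype.ext (by simpa using hexp (x : G))
      · refine Set.Finite.of_finite_image (f := Subtype.val) (hinv.subset ?_)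
          (Subtype.val_injective.injOn)
        rintro _ ⟨x, hx, rfl⟩
        have := congrArg Subtype.val hx
        simpa using this
    exact t_SUB _ _ h1
  · rw [Set.not_infinite] at hF
    have hnorm : ∀ g f : G, f ∈ F → g * f * g⁻¹ ∈ F := by
      intro g f hf
      rw [hFx, odd_conj]
      exact (hFx f).1 hf
    -- infinitely many cosets
    have himg : ((fun x : G => (x : G ⧸ F)) '' S).Infinite := by
      intro hfin
      apply hS
      refine (hfin.preimage' (f := fun x : G => (x : G ⧸ F)) ?_).subset
        (Set.subset_preimage_image _ _)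
      rintro _ ⟨x, hx, rfl⟩
      refine (hF.image (fun f => x * f)).subset ?_
      intro y hy
      have h1 : (y : G ⧸ F) = (x : G ⧸ F) := hy
      have h2 : x⁻¹ * y ∈ F := QuotientGroup.eq.1 h1.symm
      exact ⟨x⁻¹ * y, h2, by group⟩
    intro k c n
    classical
    obtain ⟨s, hs1, hs2⟩ := himg.exists_subset_card_eq (k + 1)
    choose! r hr1 hr2 using fun (q : G ⧸ F) (hq : q ∈ (fun x : G => (x : G ⧸ F)) '' S) => hq
    have hinj : Set.InjOn r (s : Set (G ⧸ F)) := by
      intro a ha b hb hab
      have h1 := hr2 a (hs1 ha)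
      have h2 := hr2 b (hs1 hb)
      rw [← h1, ← h2, hab]
    refine hGRID G k n c (s.image r) ?_ ?_
    · rw [Finset.card_image_of_injOn hinj, hs2]
      exact Nat.lt_succ_self k
    · intro x hx y hy hxy
      rw [Finset.mem_image] at hx hy
      obtain ⟨a, ha, rfl⟩ := hx
      obtain ⟨b, hb, rfl⟩ := hy
      have hab : a ≠ b := fun h => hxy (by rw [h])
      have ea := hr2 a (hs1 ha)
      have eb := hr2 b (hs1 hb)
      have ma := hr1 a (hs1 ha)
      have mb := hr1 b (hs1 hb)
      set x : G := r a with hxdef
      set y : G := r b with hydef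
      have hxy' : x⁻¹ * y ∉ F := by
        intro h
        apply hab
        rw [← ea, ← eb]
        exact QuotientGroup.eq.2 h
      obtain ⟨m, hm⟩ := hodd y mb x ma (Ne.symm hxy)
      set q : G := (y * x⁻¹) ^ (m + 1) with hq
      have hqq : q * q = y * x⁻¹ := by
        rw [hq, ← pow_add]
        have : m + 1 + (m + 1) = orderOf (y * x⁻¹) + 1 := by omega
        rw [this, pow_succ, pow_orderOf_eq_one, one_mul]
      refine ⟨q * x, ?_, ?_⟩
      · calc q * x * x⁻¹ * (q * x) = (q * q) * x := by group
          _ = y := by rw [hqq]; group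
      · by_contra hne
        have h1 : (q * x)⁻¹ * x ∈ F := (hFx _).2 hne
        have h2 : q⁻¹ ∈ F := by
          have := hnorm x _ h1
          have e : x * ((q * x)⁻¹ * x) * x⁻¹ = q⁻¹ := by group
          rwa [e] at this
        have h3 : q ∈ F := by simpa using F.inv_mem h2
        have h4 : y * x⁻¹ ∈ F := by rw [← hqq]; exact F.mul_mem h3 h3
        have h5 := hnorm x⁻¹ _ h4
        have e : x⁻¹ * (y * x⁻¹) * x⁻¹⁻¹ = x⁻¹ * y := by group
        rw [e] at h5
        exact hxy' h5

end Pool.Agent.H46R2.SY
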